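import Mathlib

/-!
# Weyl sums of the powers of a real number `a > 1`, second moments over the frequency

The port of `Pool/Agent/Helper71/Weyl.lean` from `e` to `a`.
-/

set_option autoImplicit false

namespace Pool.Agent.Helper71.AAM

open Finset

/-- Distance to the nearest integer. -/
noncomputable def distInt (x : ℝ) : ℝ := |x - round x|

/-- The additive character modulo one. -/
noncomputable def e (x : ℝ) : ℂ := Complex.exp (2 * Real.pi * Complex.I * x)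

theorem norm_e (x : ℝ) : ‖e x‖ = 1 := by
  unfold e
  have : (2 * Real.pi * Complex.I * x : ℂ) = ((2 * Real.pi * x : ℝ) : ℂ) * Complex.I := by
    push_cast; ring
  rw [this, Complex.norm_exp_ofReal_mul_I]

theorem e_add (x y : ℝ) : e (x + y) = e x * e y := by
  unfold e
  rw [← Complex.exp_add]
  congr 1
  push_cast; ring

theorem conj_e (x : ℝ) : (starRingEnd ℂ) (e x) = e (-x) := by
  unfold e
  rw [← Complex.exp_conj]
  congr 1
  simp [map_ofNat]

theorem e_zero : e 0 = 1 := by simp [e]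

theorem e_sub (x y : ℝ) : e (x - y) = e x * (starRingEnd ℂ) (e y) := by
  rw [sub_eq_add_neg, e_add, conj_e]

theorem e_int (n : ℤ) : e n = 1 := by
  unfold e
  rw [Complex.exp_eq_one_iff]
  exact ⟨n, by push_cast; ring⟩

theorem norm_e_sub_one (x : ℝ) : 4 * distInt x ≤ ‖e x - 1‖ := by
  have h1 : e x = e (x - round x) := by
    have : x = (x - round x) + (round x : ℝ) := by ring
    conv_lhs => rw [this, e_add, e_int, mul_one]
  have habs : |x - round x| ≤ 1 / 2 := abs_sub_round x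
  rw [h1]
  set y := x - round x with hy
  have h2 : e y = Complex.exp (Complex.I * ((2 * Real.pi * y : ℝ) : ℂ)) := by
    unfold e
    congr 1
    push_cast; ring
  rw [h2, Complex.norm_exp_I_mul_ofReal_sub_one]
  have h3 : 2 * Real.pi * y / 2 = Real.pi * y := by ring
  rw [h3, norm_mul, Real.norm_eq_abs, Real.norm_eq_abs, abs_two]
  have hpi := Real.pi_pos
  have h4 : |Real.pi * y| ≤ Real.pi / 2 := by
    rw [abs_mul, abs_of_pos hpi]
    nlinarith
  have h5 := Real.mul_abs_le_abs_sin h4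
  have h6 : 2 / Real.pi * |Real.pi * y| = 2 * |y| := by
    rw [abs_mul, abs_of_pos hpi]
    field_simp
  rw [h6] at h5
  unfold distInt
  rw [← hy]
  linarith

theorem geom_identity (K : ℕ) (x : ℝ) :
    (e x - 1) * ∑ k ∈ Icc 1 K, e (k * x) = e ((K + 1 : ℕ) * x) - e x := by
  induction K with
  | zero => simp
  | succ K ih =>
    rw [Finset.sum_Icc_succ_top (by omega), mul_add, ih]
    have h1 : e ((K + 1 + 1 : ℕ) * x) = e x * e ((K + 1 : ℕ) * x) := by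
      rw [← e_add]
      congr 1
      push_cast; ring
    rw [h1]
    ring

theorem geom_bound (K : ℕ) (x : ℝ) :
    2 * distInt x * ‖∑ k ∈ Icc 1 K, e (k * x)‖ ≤ 1 := by
  have h1 := geom_identity K x
  have h2 : ‖(e x - 1) * ∑ k ∈ Icc 1 K, e (k * x)‖ ≤ 2 := by
    rw [h1]
    calc ‖e ((K + 1 : ℕ) * x) - e x‖ ≤ ‖e ((K + 1 : ℕ) * x)‖ + ‖e x‖ := norm_sub_le _ _
      _ = 2 := by rw [norm_e, norm_e]; norm_num
  rw [norm_mul] at h2
  have h3 := norm_e_sub_one x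
  have h4 := mul_le_mul_of_nonneg_right h3 (norm_nonneg (∑ k ∈ Icc 1 K, e (k * x)))
  nlinarith

/-- The average of a character over an interval is small away from the integers. -/
theorem geom_large (K : ℕ) (x t : ℝ) (ht : 0 < t) (hx : t < distInt x) :
    ‖∑ k ∈ Icc 1 K, e (k * x)‖ ≤ 1 / (2 * t) := by
  have h1 := geom_bound K x
  rw [le_div_iff₀ (by positivity)]
  have h2 := mul_le_mul_of_nonneg_right hx.le (norm_nonneg (∑ k ∈ Icc 1 K, e (k * x)))
  nlinarith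

theorem geom_trivial (K : ℕ) (x : ℝ) : ‖∑ k ∈ Icc 1 K, e (k * x)‖ ≤ K := by
  calc ‖∑ k ∈ Icc 1 K, e (k * x)‖ ≤ ∑ k ∈ Icc 1 K, ‖e (k * x)‖ := norm_sum_le _ _
    _ = K := by simp [norm_e]

/-- The second moment over the frequency. -/
theorem second_moment (K N : ℕ) (θ : ℝ) (y : ℕ → ℝ) (a : ℕ → ℂ) (ha : ∀ n, ‖a n‖ ≤ 1)
    (t D : ℝ) (ht : 0 < t)
    (hD : ∀ m ∈ Icc 1 N, (((Icc 1 N).filter (fun n => distInt (y n - y m) ≤ t)).card : ℝ) ≤ D) :
    ∑ k ∈ Icc 1 K, ‖∑ n ∈ Icc 1 N, a n * e ((k + θ) * y n)‖ ^ 2 ≤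
      N * (D * K + N * (1 / (2 * t))) := by
  classical
  have h1 : ((∑ k ∈ Icc 1 K, ‖∑ n ∈ Icc 1 N, a n * e ((k + θ) * y n)‖ ^ 2 : ℝ) : ℂ) =
      ∑ m ∈ Icc 1 N, ∑ n ∈ Icc 1 N, a n * (starRingEnd ℂ) (a m) * e (θ * (y n - y m)) *
        ∑ k ∈ Icc 1 K, e (k * (y n - y m)) := by
    push_cast
    have h2 : ∀ k ∈ Icc 1 K, ((‖∑ n ∈ Icc 1 N, a n * e ((k + θ) * y n)‖ : ℂ)) ^ 2 =
        ∑ m ∈ Icc 1 N, ∑ n ∈ Icc 1 N, a n * (starRingEnd ℂ) (a m) * e (θ * (y n - y m)) *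
          e (k * (y n - y m)) := by
      intro k _
      rw [← Complex.mul_conj', map_sum, Finset.sum_mul_sum, Finset.sum_comm]
      refine Finset.sum_congr rfl (fun m _ => Finset.sum_congr rfl (fun n _ => ?_))
      have h3 : e (θ * (y n - y m)) * e (k * (y n - y m)) =
          e ((k + θ) * y n) * (starRingEnd ℂ) (e ((k + θ) * y m)) := by
        rw [← e_add, ← e_sub]
        congr 1
        ring
      rw [map_mul]
      calc a n * e ((k + θ) * y n) * ((starRingEnd ℂ) (a m) *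
            (starRingEnd ℂ) (e ((k + θ) * y m)))
          = a n * (starRingEnd ℂ) (a m) * (e ((k + θ) * y n) *
            (starRingEnd ℂ) (e ((k + θ) * y m))) := by ring
        _ = _ := by rw [← h3]; ring
    rw [Finset.sum_congr rfl h2, Finset.sum_comm]
    refine Finset.sum_congr rfl (fun m _ => ?_)
    rw [Finset.sum_comm]
    refine Finset.sum_congr rfl (fun n _ => ?_)
    rw [Finset.mul_sum]
  have hnn : 0 ≤ ∑ k ∈ Icc 1 K, ‖∑ n ∈ Icc 1 N, a n * e ((k + θ) * y n)‖ ^ 2 :=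
    Finset.sum_nonneg (fun _ _ => by positivity)
  have h4 : ∑ k ∈ Icc 1 K, ‖∑ n ∈ Icc 1 N, a n * e ((k + θ) * y n)‖ ^ 2 =
      ‖((∑ k ∈ Icc 1 K, ‖∑ n ∈ Icc 1 N, a n * e ((k + θ) * y n)‖ ^ 2 : ℝ) : ℂ)‖ := by
    rw [Complex.norm_real, Real.norm_of_nonneg hnn]
  rw [h4, h1]
  have h5 : ∀ m ∈ Icc 1 N, ‖∑ n ∈ Icc 1 N, a n * (starRingEnd ℂ) (a m) *
      e (θ * (y n - y m)) * ∑ k ∈ Icc 1 K, e (k * (y n - y m))‖ ≤
      D * K + N * (1 / (2 * t)) := by
    intro m hm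
    have h6 : ∀ n ∈ Icc 1 N, ‖a n * (starRingEnd ℂ) (a m) *
        e (θ * (y n - y m)) * ∑ k ∈ Icc 1 K, e (k * (y n - y m))‖ ≤
        (if distInt (y n - y m) ≤ t then (K : ℝ) else 0) + 1 / (2 * t) := by
      intro n _
      have h7 : ‖a n * (starRingEnd ℂ) (a m) *
        e (θ * (y n - y m)) * ∑ k ∈ Icc 1 K, e (k * (y n - y m))‖ ≤
          ‖∑ k ∈ Icc 1 K, e (k * (y n - y m))‖ := by
        rw [norm_mul, norm_mul, norm_mul, norm_e, mul_one, RCLike.norm_conj]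
        have := mul_le_one₀ (ha n) (norm_nonneg (a m)) (ha m)
        exact mul_le_of_le_one_left (norm_nonneg _) this
      refine h7.trans ?_
      split_ifs with h8
      · have := geom_trivial K (y n - y m)
        have : 0 ≤ 1 / (2 * t) := by positivity
        linarith [geom_trivial K (y n - y m)]
      · push Not at h8
        rw [zero_add]
        exact geom_large K _ t ht h8
    calc _ ≤ ∑ n ∈ Icc 1 N, ‖a n * (starRingEnd ℂ) (a m) *
        e (θ * (y n - y m)) * ∑ k ∈ Icc 1 K, e (k * (y n - y m))‖ := norm_sum_le _ _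
      _ ≤ ∑ n ∈ Icc 1 N, ((if distInt (y n - y m) ≤ t then (K : ℝ) else 0) + 1 / (2 * t)) :=
        Finset.sum_le_sum h6
      _ = ((Icc 1 N).filter (fun n => distInt (y n - y m) ≤ t)).card * K + N * (1 / (2 * t)) := by
        rw [Finset.sum_add_distrib, ← Finset.sum_filter]
        simp
      _ ≤ D * K + N * (1 / (2 * t)) := by
        have := mul_le_mul_of_nonneg_right (hD m hm) (Nat.cast_nonneg (α := ℝ) K)
        linarith
  calc _ ≤ ∑ m ∈ Icc 1 N, ‖∑ n ∈ Icc 1 N, a n * (starRingEnd ℂ) (a m) *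
      e (θ * (y n - y m)) * ∑ k ∈ Icc 1 K, e (k * (y n - y m))‖ := norm_sum_le _ _
    _ ≤ ∑ m ∈ Icc 1 N, (D * K + N * (1 / (2 * t))) := Finset.sum_le_sum h5
    _ = N * (D * K + N * (1 / (2 * t))) := by
      rw [Finset.sum_const, Nat.card_Icc, nsmul_eq_mul]
      simp

/-- Shifting the window of summation. -/
theorem sum_shift (z : ℤ → ℂ) (N H : ℕ) (hz : ∀ n : ℤ, (n < 1 ∨ (N : ℤ) < n) → z n = 0)
    (j : ℤ) (hj0 : 0 ≤ j) (hjH : j < H) :
    ∑ m ∈ Ico (1 - (H : ℤ)) (N + 1), z (m + j) = ∑ n ∈ Ico (1 : ℤ) (N + 1), z n := by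
  rw [Finset.sum_Ico_add']
  symm
  apply Finset.sum_subset
  · intro x hx
    rw [Finset.mem_Ico] at hx ⊢
    constructor <;> omega
  · intro x hx hx'
    rw [Finset.mem_Ico] at hx hx'
    apply hz
    omega

/-- Correlations along a shifted window. -/
theorem sum_corr (z : ℤ → ℂ) (N H : ℕ) (hz : ∀ n : ℤ, (n < 1 ∨ (N : ℤ) < n) → z n = 0)
    (j j' : ℤ) (hj0 : 0 ≤ j') (hjH : j' < H) :
    ∑ m ∈ Ico (1 - (H : ℤ)) (N + 1), z (m + j) * (starRingEnd ℂ) (z (m + j')) =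
      ∑ n ∈ Ico (1 : ℤ) (N + 1), z (n + (j - j')) * (starRingEnd ℂ) (z n) := by
  have h := sum_shift (fun n => z (n + (j - j')) * (starRingEnd ℂ) (z n)) N H
    (by intro n hn; simp [hz n hn]) j' hj0 hjH
  rw [← h]
  refine Finset.sum_congr rfl (fun m _ => ?_)
  have : m + j' + (j - j') = m + j := by ring
  rw [this]

theorem corr_symm (z : ℤ → ℂ) (N : ℕ) (hz : ∀ n : ℤ, (n < 1 ∨ (N : ℤ) < n) → z n = 0)
    (u : ℤ) :
    ‖∑ n ∈ Ico (1 : ℤ) (N + 1), z (n + (-u)) * (starRingEnd ℂ) (z n)‖ =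
      ‖∑ n ∈ Ico (1 : ℤ) (N + 1), z (n + u) * (starRingEnd ℂ) (z n)‖ := by
  have h1 : ∑ n ∈ Ico (1 : ℤ) (N + 1), z (n + (-u)) * (starRingEnd ℂ) (z n) =
      (starRingEnd ℂ) (∑ n ∈ Ico (1 : ℤ) (N + 1), z (n + u) * (starRingEnd ℂ) (z n)) := by
    rw [map_sum]
    have h2 : ∑ n ∈ Ico (1 : ℤ) (N + 1), z (n + (-u)) * (starRingEnd ℂ) (z n) =
        ∑ n ∈ Ico (1 + -u) ((N : ℤ) + 1 + -u), z n * (starRingEnd ℂ) (z (n + u)) := by
      rw [← Finset.sum_Ico_add' (fun n => z n * (starRingEnd ℂ) (z (n + u)))]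
      refine Finset.sum_congr rfl (fun m _ => ?_)
      have : m + -u + u = m := by ring
      rw [this]
    rw [h2]
    have h3 : ∀ n : ℤ, z n * (starRingEnd ℂ) (z (n + u)) ≠ 0 →
        (1 ≤ n ∧ n < N + 1) ∧ (1 + -u ≤ n ∧ n < N + 1 + -u) := by
      intro n hn
      have h4 : z n ≠ 0 := fun h => hn (by rw [h, zero_mul])
      have h5 : z (n + u) ≠ 0 := fun h => hn (by rw [h, map_zero, mul_zero])
      have h6 : ¬ (n < 1 ∨ (N : ℤ) < n) := fun h => h4 (hz n h)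
      have h7 : ¬ (n + u < 1 ∨ (N : ℤ) < n + u) := fun h => h5 (hz (n + u) h)
      omega
    have h8 : ∑ n ∈ Ico (1 + -u) ((N : ℤ) + 1 + -u), z n * (starRingEnd ℂ) (z (n + u)) =
        ∑ n ∈ Ico (1 : ℤ) (N + 1), z n * (starRingEnd ℂ) (z (n + u)) := by
      rw [← Finset.sum_filter_of_ne (s := Ico (1 + -u) ((N : ℤ) + 1 + -u))
        (p := fun n => 1 ≤ n ∧ n < (N : ℤ) + 1) (fun n _ hn => (h3 n hn).1),
        ← Finset.sum_filter_of_ne (s := Ico (1 : ℤ) (N + 1))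
        (p := fun n => 1 + -u ≤ n ∧ n < (N : ℤ) + 1 + -u) (fun n _ hn => (h3 n hn).2)]
      apply Finset.sum_congr _ (fun _ _ => rfl)
      ext n
      simp only [Finset.mem_filter, Finset.mem_Ico]
      tauto
    rw [h8]
    refine Finset.sum_congr rfl (fun n _ => ?_)
    rw [map_mul, Complex.conj_conj, mul_comm]
  rw [h1, RCLike.norm_conj]

/-- Van der Corput inequality with short shifts. -/
theorem van_der_corput (z : ℤ → ℂ) (N H : ℕ) (hH : 1 ≤ H) (hz1 : ∀ n, ‖z n‖ ≤ 1)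
    (hz : ∀ n : ℤ, (n < 1 ∨ (N : ℤ) < n) → z n = 0) :
    H * ‖∑ n ∈ Ico (1 : ℤ) (N + 1), z n‖ ^ 2 ≤ (N + H) * (N + 2 * ∑ u ∈ Ico 1 H,
      ‖∑ n ∈ Ico (1 : ℤ) (N + 1), z (n + u) * (starRingEnd ℂ) (z n)‖) := by
  classical
  set R : ℤ → ℝ := fun u => ‖∑ n ∈ Ico (1 : ℤ) (N + 1), z (n + u) * (starRingEnd ℂ) (z n)‖
    with hR
  have hRs : ∀ u, R (-u) = R u := fun u => corr_symm z N hz u
  have hR0 : R 0 ≤ N := by
    rw [hR]
    calc ‖∑ n ∈ Ico (1 : ℤ) (N + 1), z (n + 0) * (starRingEnd ℂ) (z n)‖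
        ≤ ∑ n ∈ Ico (1 : ℤ) (N + 1), ‖z (n + 0) * (starRingEnd ℂ) (z n)‖ := norm_sum_le _ _
      _ ≤ ∑ n ∈ Ico (1 : ℤ) (N + 1), (1 : ℝ) := by
        apply Finset.sum_le_sum
        intro n _
        rw [norm_mul, RCLike.norm_conj]
        exact mul_le_one₀ (hz1 _) (norm_nonneg _) (hz1 _)
      _ = N := by simp
  -- the sum over all shifts
  have h1 : (H : ℂ) * ∑ n ∈ Ico (1 : ℤ) (N + 1), z n =
      ∑ m ∈ Ico (1 - (H : ℤ)) (N + 1), ∑ j ∈ range H, z (m + j) := by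
    rw [Finset.sum_comm]
    have : ∀ j ∈ range H, ∑ m ∈ Ico (1 - (H : ℤ)) (N + 1), z (m + (j : ℤ)) =
        ∑ n ∈ Ico (1 : ℤ) (N + 1), z n := by
      intro j hj
      rw [Finset.mem_range] at hj
      exact sum_shift z N H hz j (by omega) (by exact_mod_cast hj)
    rw [Finset.sum_congr rfl this, Finset.sum_const, Finset.card_range, nsmul_eq_mul]
  have hcard : ((Ico (1 - (H : ℤ)) ((N : ℤ) + 1)).card : ℝ) = N + H := by
    rw [Int.card_Ico]
    have : ((N : ℤ) + 1 - (1 - (H : ℤ))).toNat = N + H := by omega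
    rw [this]
    push_cast; ring
  have h2 : (H : ℝ) ^ 2 * ‖∑ n ∈ Ico (1 : ℤ) (N + 1), z n‖ ^ 2 ≤
      (N + H) * ∑ m ∈ Ico (1 - (H : ℤ)) (N + 1), ‖∑ j ∈ range H, z (m + j)‖ ^ 2 := by
    have h3 : (H : ℝ) * ‖∑ n ∈ Ico (1 : ℤ) (N + 1), z n‖ ≤
        ∑ m ∈ Ico (1 - (H : ℤ)) (N + 1), ‖∑ j ∈ range H, z (m + j)‖ := by
      calc (H : ℝ) * ‖∑ n ∈ Ico (1 : ℤ) (N + 1), z n‖ =
          ‖(H : ℂ) * ∑ n ∈ Ico (1 : ℤ) (N + 1), z n‖ := by
            rw [norm_mul, Complex.norm_natCast]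
        _ ≤ _ := by rw [h1]; exact norm_sum_le _ _
    have h4 := sq_sum_le_card_mul_sum_sq (s := Ico (1 - (H : ℤ)) ((N : ℤ) + 1))
      (f := fun m => ‖∑ j ∈ range H, z (m + j)‖)
    rw [hcard] at h4
    calc (H : ℝ) ^ 2 * ‖∑ n ∈ Ico (1 : ℤ) (N + 1), z n‖ ^ 2 =
        ((H : ℝ) * ‖∑ n ∈ Ico (1 : ℤ) (N + 1), z n‖) ^ 2 := by ring
      _ ≤ (∑ m ∈ Ico (1 - (H : ℤ)) (N + 1), ‖∑ j ∈ range H, z (m + j)‖) ^ 2 :=
        pow_le_pow_left₀ (by positivity) h3 2
      _ ≤ _ := h4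
  have h5 : ∑ m ∈ Ico (1 - (H : ℤ)) (N + 1), ‖∑ j ∈ range H, z (m + j)‖ ^ 2 ≤
      ∑ j ∈ range H, ∑ j' ∈ range H, R ((j : ℤ) - j') := by
    have h6 : ((∑ m ∈ Ico (1 - (H : ℤ)) (N + 1), ‖∑ j ∈ range H, z (m + j)‖ ^ 2 : ℝ) : ℂ) =
        ∑ j ∈ range H, ∑ j' ∈ range H,
          ∑ n ∈ Ico (1 : ℤ) (N + 1), z (n + ((j : ℤ) - j')) * (starRingEnd ℂ) (z n) := by
      push_cast
      have h7 : ∀ m ∈ Ico (1 - (H : ℤ)) ((N : ℤ) + 1), ((‖∑ j ∈ range H, z (m + j)‖ : ℂ)) ^ 2 =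
          ∑ j ∈ range H, ∑ j' ∈ range H, z (m + j) * (starRingEnd ℂ) (z (m + j')) := by
        intro m _
        rw [← Complex.mul_conj', map_sum, Finset.sum_mul_sum]
      rw [Finset.sum_congr rfl h7, Finset.sum_comm]
      refine Finset.sum_congr rfl (fun j _ => ?_)
      rw [Finset.sum_comm]
      refine Finset.sum_congr rfl (fun j' hj' => ?_)
      rw [Finset.mem_range] at hj'
      exact sum_corr z N H hz j j' (by omega) (by exact_mod_cast hj')
    have h8 : 0 ≤ ∑ m ∈ Ico (1 - (H : ℤ)) (N + 1), ‖∑ j ∈ range H, z (m + j)‖ ^ 2 :=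
      Finset.sum_nonneg (fun _ _ => by positivity)
    calc ∑ m ∈ Ico (1 - (H : ℤ)) (N + 1), ‖∑ j ∈ range H, z (m + j)‖ ^ 2 =
        ‖((∑ m ∈ Ico (1 - (H : ℤ)) (N + 1), ‖∑ j ∈ range H, z (m + j)‖ ^ 2 : ℝ) : ℂ)‖ := by
          rw [Complex.norm_real, Real.norm_of_nonneg h8]
      _ ≤ _ := by
        rw [h6]
        refine (norm_sum_le _ _).trans (Finset.sum_le_sum (fun j _ => ?_))
        exact norm_sum_le _ _
  have h9 : ∀ j ∈ range H, ∑ j' ∈ range H, R ((j : ℤ) - j') ≤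
      N + 2 * ∑ u ∈ Ico 1 H, R u := by
    intro j hj
    rw [Finset.mem_range] at hj
    have hRnn : ∀ u, 0 ≤ R u := fun u => norm_nonneg _
    have h10 : ∑ j' ∈ range H, R ((j : ℤ) - (j' : ℕ)) = ∑ j' ∈ range j, R ((j : ℤ) - (j' : ℕ)) +
        (R 0 + ∑ i ∈ range (H - (j + 1)), R (((1 + i : ℕ) : ℤ))) := by
      rw [Finset.range_eq_Ico, ← Finset.sum_Ico_consecutive _ (Nat.zero_le j) hj.le,
        ← Finset.range_eq_Ico, Finset.sum_eq_sum_Ico_succ_bot hj]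
      congr 2
      · simp
      · rw [Finset.sum_Ico_eq_sum_range]
        refine Finset.sum_congr rfl (fun i _ => ?_)
        rw [← hRs]
        congr 1
        push_cast; ring
    have h11 : ∑ j' ∈ range j, R ((j : ℤ) - (j' : ℕ)) = ∑ i ∈ range j, R (((1 + i : ℕ) : ℤ)) := by
      rw [← Finset.sum_range_reflect]
      refine Finset.sum_congr rfl (fun i hi => ?_)
      rw [Finset.mem_range] at hi
      congr 1
      omega
    have h12 : ∀ l, l ≤ H - 1 → ∑ i ∈ range l, R (((1 + i : ℕ) : ℤ)) ≤ ∑ u ∈ Ico 1 H, R u := by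
      intro l hl
      rw [Finset.sum_Ico_eq_sum_range]
      apply Finset.sum_le_sum_of_subset_of_nonneg
      · exact Finset.range_subset_range.mpr hl
      · intro i _ _
        exact hRnn _
    rw [h10, h11]
    have h13 := h12 j (by omega)
    have h14 := h12 (H - (j + 1)) (by omega)
    linarith
  have h15 : ∑ j ∈ range H, ∑ j' ∈ range H, R ((j : ℤ) - j') ≤
      H * (N + 2 * ∑ u ∈ Ico 1 H, R u) := by
    calc _ ≤ ∑ j ∈ range H, (N + 2 * ∑ u ∈ Ico 1 H, R u) := Finset.sum_le_sum h9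
      _ = H * (N + 2 * ∑ u ∈ Ico 1 H, R u) := by
        rw [Finset.sum_const, Finset.card_range, nsmul_eq_mul]
  have hHpos : (0 : ℝ) < H := by exact_mod_cast hH
  have h16 : (H : ℝ) * (H * ‖∑ n ∈ Ico (1 : ℤ) (N + 1), z n‖ ^ 2) ≤
      H * ((N + H) * (N + 2 * ∑ u ∈ Ico 1 H, R u)) := by
    calc (H : ℝ) * (H * ‖∑ n ∈ Ico (1 : ℤ) (N + 1), z n‖ ^ 2) =
        (H : ℝ) ^ 2 * ‖∑ n ∈ Ico (1 : ℤ) (N + 1), z n‖ ^ 2 := by ring
      _ ≤ _ := h2
      _ ≤ (N + H) * (H * (N + 2 * ∑ u ∈ Ico 1 H, R u)) :=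
        mul_le_mul_of_nonneg_left (h5.trans h15) (by positivity)
      _ = _ := by ring
  exact le_of_mul_le_mul_left h16 hHpos

theorem sum_int_nat (g : ℤ → ℂ) (N : ℕ) :
    ∑ n ∈ Ico (1 : ℤ) (N + 1), g n = ∑ n ∈ Icc 1 N, g (n : ℤ) := by
  have h : Ico (1 : ℤ) (N + 1) = (Icc 1 N).image (Nat.cast : ℕ → ℤ) := by
    ext x
    simp only [Finset.mem_image, Finset.mem_Icc, Finset.mem_Ico]
    constructor
    · rintro ⟨h1, h2⟩
      exact ⟨x.toNat, by omega, by omega⟩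
    · rintro ⟨n, hn, rfl⟩
      omega
  rw [h, Finset.sum_image]
  intro x _ y _ hxy
  exact_mod_cast hxy

/-- Van der Corput inequality for weighted exponential sums. -/
theorem vdc_nat (a : ℕ → ℂ) (ha : ∀ n, ‖a n‖ ≤ 1) (f : ℕ → ℝ) (N H : ℕ) (hH : 1 ≤ H) :
    H * ‖∑ n ∈ Icc 1 N, a n * e (f n)‖ ^ 2 ≤ (N + H) * (N + 2 * ∑ u ∈ Ico 1 H,
      ‖∑ n ∈ Icc 1 N, (if n + u ≤ N then a (n + u) * (starRingEnd ℂ) (a n) else 0) *
        e (f (n + u) - f n)‖) := by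
  classical
  set z : ℤ → ℂ := fun n => if 1 ≤ n ∧ n ≤ N then a n.toNat * e (f n.toNat) else 0 with hzdef
  have hz1 : ∀ n, ‖z n‖ ≤ 1 := by
    intro n
    rw [hzdef]
    dsimp only
    split_ifs
    · rw [norm_mul, norm_e, mul_one]
      exact ha _
    · simp
  have hz : ∀ n : ℤ, (n < 1 ∨ (N : ℤ) < n) → z n = 0 := by
    intro n hn
    rw [hzdef]
    dsimp only
    rw [if_neg]
    omega
  have hzn : ∀ n : ℕ, 1 ≤ n → n ≤ N → z (n : ℤ) = a n * e (f n) := by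
    intro n h1 h2
    rw [hzdef]
    dsimp only
    rw [if_pos ⟨by exact_mod_cast h1, by exact_mod_cast h2⟩, Int.toNat_natCast]
  have hzn' : ∀ n : ℕ, N < n → z (n : ℤ) = 0 := by
    intro n h1
    apply hz
    right
    exact_mod_cast h1
  have h := van_der_corput z N H hH hz1 hz
  rw [sum_int_nat] at h
  have e1 : ∑ n ∈ Icc 1 N, z (n : ℤ) = ∑ n ∈ Icc 1 N, a n * e (f n) := by
    refine Finset.sum_congr rfl (fun n hn => ?_)
    rw [Finset.mem_Icc] at hn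
    exact hzn n hn.1 hn.2
  rw [e1] at h
  have e2 : ∀ u ∈ Ico 1 H, ‖∑ n ∈ Ico (1 : ℤ) (N + 1), z (n + (u : ℕ)) *
      (starRingEnd ℂ) (z n)‖ = ‖∑ n ∈ Icc 1 N, (if n + u ≤ N then
        a (n + u) * (starRingEnd ℂ) (a n) else 0) * e (f (n + u) - f n)‖ := by
    intro u _
    rw [sum_int_nat]
    congr 1
    refine Finset.sum_congr rfl (fun n hn => ?_)
    rw [Finset.mem_Icc] at hn
    have e3 : ((n : ℤ) + (u : ℕ)) = ((n + u : ℕ) : ℤ) := by push_cast; ring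
    rw [e3]
    split_ifs with h3
    · rw [hzn n hn.1 hn.2, hzn (n + u) (by omega) h3, e_sub, map_mul]
      ring
    · rw [hzn' (n + u) (by omega)]
      simp
  rw [Finset.sum_congr rfl e2] at h
  exact h

open Polynomial in
/-- Differences of a polynomial have smaller degree. -/
theorem exists_diff (P : ℝ[X]) (s u : ℕ) (hP : P.natDegree ≤ s + 1) :
    ∃ Q : ℝ[X], Q.natDegree ≤ s ∧ ∀ n : ℕ,
      P.eval ((n + u : ℕ) : ℝ) - P.eval (n : ℝ) = Q.eval (n : ℝ) := by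
  refine ⟨P.comp (X + C (u : ℝ)) - P, ?_, ?_⟩
  · by_cases h0 : P.natDegree = 0
    · rw [Polynomial.eq_C_of_natDegree_eq_zero h0]
      simp
    · have hP0 : P ≠ 0 := by
        rintro rfl
        simp at h0
      have hdeg : (P.comp (X + C (u : ℝ))).natDegree = P.natDegree := by
        rw [Polynomial.natDegree_comp, Polynomial.natDegree_X_add_C, mul_one]
      have hne : P.comp (X + C (u : ℝ)) ≠ 0 := by
        intro h
        rw [h, Polynomial.natDegree_zero] at hdeg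
        exact h0 hdeg.symm
      have hlc : (P.comp (X + C (u : ℝ))).leadingCoeff = P.leadingCoeff := by
        rw [Polynomial.leadingCoeff_comp (by rw [Polynomial.natDegree_X_add_C]; norm_num),
          Polynomial.leadingCoeff_X_add_C, one_pow, mul_one]
      have hd : (P.comp (X + C (u : ℝ))).degree = P.degree := by
        rw [Polynomial.degree_eq_natDegree hne, Polynomial.degree_eq_natDegree hP0, hdeg]
      have hlt := Polynomial.degree_sub_lt_left hd hne hlc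
      by_cases hz : P.comp (X + C (u : ℝ)) - P = 0
      · rw [hz]; simp
      · have := (Polynomial.natDegree_lt_natDegree_iff hz).mpr (by rw [← hd]; exact hlt)
        omega
  · intro n
    simp [Polynomial.eval_comp]

/-- The base case: no polynomial.  `hd` is the sublinear bound for the number of `n ≤ N` with
`η a ^ n` exponentially close to `x` modulo one. -/
theorem majorant_zero {a₀ : ℝ}
    (hd : ∀ A ε : ℝ, 0 < ε → ∃ c C : ℝ, 0 < c ∧ c < 1 ∧ 0 < C ∧ ∀ N : ℕ, 1 ≤ N → ∀ ξ : ℝ,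
      Real.exp (-(ε / 2 * N)) ≤ |ξ| → |ξ| ≤ Real.exp (A * N) → ∀ x : ℝ,
      ({n : ℕ | 1 ≤ n ∧ n ≤ N ∧ distInt (ξ * a₀ ^ n - x) ≤ Real.exp (-(ε * N))}.ncard : ℝ) ≤
        C * (N : ℝ) ^ (1 - c))
    (A ε b : ℝ) (hε : 0 < ε) (hb0 : 0 ≤ b) (hb : b < ε / 2) :
    ∃ c C : ℝ, 0 < c ∧ c < 1 ∧ 0 < C ∧ ∀ N K : ℕ, 1 ≤ N → Real.exp (ε * N) ≤ K →
      ∀ η : ℝ, Real.exp (-(b * N)) ≤ |η| → |η| ≤ Real.exp (A * N) → ∀ θ : ℝ,
      ∀ a : ℕ → ℂ, (∀ n, ‖a n‖ ≤ 1) → ∃ t : ℕ → ℝ, (∀ k, 0 ≤ t k) ∧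
        (∀ (k : ℕ) (P : Polynomial ℝ), P.natDegree ≤ 0 →
          ‖∑ n ∈ Icc 1 N, a n * e ((k + θ) * (η * a₀ ^ n) + P.eval (n : ℝ))‖ ≤ t k) ∧
        ∑ k ∈ Icc 1 K, (t k) ^ 2 ≤ C * K * (N : ℝ) ^ (2 - c) := by
  obtain ⟨c, C, hc0, hc1, hC, hmain⟩ := hd A (b + ε / 2) (by linarith)
  set g : ℝ := ε / 2 - b with hg
  have hg0 : 0 < g := by linarith
  refine ⟨c, C + 1 / g ^ 2, hc0, hc1, by positivity, ?_⟩
  intro N K hN hK η hη1 hη2 θ a ha
  have hN1 : (1 : ℝ) ≤ N := by exact_mod_cast hN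
  have hN0 : (0 : ℝ) ≤ N := by linarith
  refine ⟨fun k => ‖∑ n ∈ Icc 1 N, a n * e ((k + θ) * (η * a₀ ^ n))‖,
    fun k => norm_nonneg _, ?_, ?_⟩
  · intro k P hP
    have hP0 : P = Polynomial.C (P.coeff 0) :=
      Polynomial.eq_C_of_natDegree_eq_zero (Nat.le_zero.mp hP)
    have h1 : ∑ n ∈ Icc 1 N, a n * e ((k + θ) * (η * a₀ ^ n) + P.eval (n : ℝ)) =
        (∑ n ∈ Icc 1 N, a n * e ((k + θ) * (η * a₀ ^ n))) * e (P.coeff 0) := by
      rw [Finset.sum_mul]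
      refine Finset.sum_congr rfl (fun n _ => ?_)
      rw [hP0, Polynomial.eval_C, e_add, Polynomial.coeff_C_zero]
      ring
    rw [h1, norm_mul, norm_e, mul_one]
  · have h2 := second_moment K N θ (fun n => η * a₀ ^ n) a ha
      (Real.exp (-((b + ε / 2) * N))) (C * (N : ℝ) ^ (1 - c)) (Real.exp_pos _) (by
        intro m hm
        have h3 := hmain N hN η (by
            refine le_trans ?_ hη1
            apply Real.exp_le_exp.mpr
            have : 0 ≤ (ε / 2 - b) * N := by positivity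
            nlinarith) hη2 (η * a₀ ^ m)
        refine le_trans (le_of_eq ?_) h3
        congr 1
        rw [← Set.ncard_coe_finset]
        congr 1
        ext n
        simp [and_assoc])
    refine h2.trans ?_
    have hNpow : (N : ℝ) * (N : ℝ) ^ (1 - c) = (N : ℝ) ^ (2 - c) := by
      have : (2 : ℝ) - c = 1 + (1 - c) := by ring
      rw [this, Real.rpow_add (by linarith), Real.rpow_one]
    have hNge : (1 : ℝ) ≤ (N : ℝ) ^ (2 - c) := Real.one_le_rpow hN1 (by linarith)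
    set x : ℝ := g * N with hx
    have hx0 : 0 ≤ x := by positivity
    have hquad := Real.quadratic_le_exp_of_nonneg hx0
    set X : ℝ := Real.exp ((b + ε / 2) * N) with hX
    have hKx : Real.exp x * X ≤ K := by
      rw [hX, ← Real.exp_add]
      refine le_trans (le_of_eq ?_) hK
      congr 1
      rw [hx, hg]; ring
    have h4 : 1 / (2 * Real.exp (-((b + ε / 2) * N))) = X / 2 := by
      rw [Real.exp_neg, ← hX]
      field_simp
    rw [h4]
    have hNsq : (N : ℝ) ^ 2 ≤ 2 / g ^ 2 * Real.exp x := by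
      have h5 : (N : ℝ) ^ 2 = 1 / g ^ 2 * x ^ 2 := by
        rw [hx]
        field_simp
      rw [h5]
      have h6 : x ^ 2 ≤ 2 * Real.exp x := by nlinarith
      calc 1 / g ^ 2 * x ^ 2 ≤ 1 / g ^ 2 * (2 * Real.exp x) :=
            mul_le_mul_of_nonneg_left h6 (by positivity)
        _ = _ := by ring
    have hXpos : 0 < X := Real.exp_pos _
    have h7 : (N : ℝ) ^ 2 * (X / 2) ≤ 1 / g ^ 2 * K := by
      calc (N : ℝ) ^ 2 * (X / 2) ≤ (2 / g ^ 2 * Real.exp x) * (X / 2) :=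
            mul_le_mul_of_nonneg_right hNsq (by positivity)
        _ = 1 / g ^ 2 * (Real.exp x * X) := by ring
        _ ≤ 1 / g ^ 2 * K := mul_le_mul_of_nonneg_left hKx (by positivity)
    have hK0 : (0 : ℝ) ≤ K := Nat.cast_nonneg _
    calc (N : ℝ) * (C * (N : ℝ) ^ (1 - c) * K + N * (X / 2))
        = C * K * ((N : ℝ) * (N : ℝ) ^ (1 - c)) + (N : ℝ) ^ 2 * (X / 2) := by ring
      _ ≤ C * K * (N : ℝ) ^ (2 - c) + 1 / g ^ 2 * K * 1 := by
        rw [hNpow]; linarith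
      _ ≤ C * K * (N : ℝ) ^ (2 - c) + 1 / g ^ 2 * K * (N : ℝ) ^ (2 - c) := by
        have := mul_le_mul_of_nonneg_left hNge (show 0 ≤ 1 / g ^ 2 * (K : ℝ) by positivity)
        linarith
      _ = _ := by ring

open Polynomial in
/-- Majorants, uniform over real polynomial phases of bounded degree, with a small second
moment over the frequency. -/
theorem majorant {a₀ : ℝ} (ha₀ : 1 < a₀)
    (hd : ∀ A ε : ℝ, 0 < ε → ∃ c C : ℝ, 0 < c ∧ c < 1 ∧ 0 < C ∧ ∀ N : ℕ, 1 ≤ N → ∀ ξ : ℝ,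
      Real.exp (-(ε / 2 * N)) ≤ |ξ| → |ξ| ≤ Real.exp (A * N) → ∀ x : ℝ,
      ({n : ℕ | 1 ≤ n ∧ n ≤ N ∧ distInt (ξ * a₀ ^ n - x) ≤ Real.exp (-(ε * N))}.ncard : ℝ) ≤
        C * (N : ℝ) ^ (1 - c)) (s : ℕ) : ∀ (A ε b : ℝ), 0 < ε → 0 ≤ b → b < ε / 2 →
    ∃ c C : ℝ, 0 < c ∧ c < 1 ∧ 0 < C ∧ ∃ N₀ : ℕ, ∀ N K : ℕ, N₀ ≤ N → 1 ≤ N →
      Real.exp (ε * N) ≤ K →
      ∀ η : ℝ, Real.exp (-(b * N)) ≤ |η| → |η| ≤ Real.exp (A * N) → ∀ θ : ℝ,
      ∀ a : ℕ → ℂ, (∀ n, ‖a n‖ ≤ 1) → ∃ t : ℕ → ℝ, (∀ k, 0 ≤ t k) ∧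
        (∀ (k : ℕ) (P : ℝ[X]), P.natDegree ≤ s →
          ‖∑ n ∈ Icc 1 N, a n * e ((k + θ) * (η * a₀ ^ n) + P.eval (n : ℝ))‖ ≤ t k) ∧
        ∑ k ∈ Icc 1 K, (t k) ^ 2 ≤ C * K * (N : ℝ) ^ (2 - c) := by
  induction s with
  | zero =>
    intro A ε b hε hb0 hb
    obtain ⟨c, C, hc0, hc1, hC, h⟩ := majorant_zero hd A ε b hε hb0 hb
    exact ⟨c, C, hc0, hc1, hC, 0, fun N K _ => h N K⟩
  | succ s ih =>
    intro A ε b hε hb0 hb
    obtain ⟨c, C, hc0, hc1, hC, N₀, hmain⟩ := ih (A + Real.log a₀) ε ((b + ε / 2) / 2) hε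
      (by linarith) (by linarith)
    set δ : ℝ := min 1 (a₀ - 1) with hδ
    have hδ0 : 0 < δ := lt_min one_pos (by linarith)
    set g : ℝ := (ε / 2 - b) / 2 with hg
    have hg0 : 0 < g := by linarith
    refine ⟨c / 2, 4 + 4 * Real.sqrt C, by positivity, by linarith, by positivity,
      max N₀ ⌈-Real.log δ / g⌉₊, ?_⟩
    intro N K hNN hN hK η hη1 hη2 θ a ha
    have hNN0 : N₀ ≤ N := le_trans (le_max_left _ _) hNN
    have hNδ : Real.exp (-(g * N)) ≤ δ := by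
      have h1 : -Real.log δ / g ≤ N :=
        (Nat.le_ceil _).trans (by exact_mod_cast le_trans (le_max_right _ _) hNN)
      rw [div_le_iff₀ hg0] at h1
      calc Real.exp (-(g * N)) ≤ Real.exp (Real.log δ) := Real.exp_le_exp.mpr (by linarith)
        _ = δ := Real.exp_log hδ0
    have hN1 : (1 : ℝ) ≤ N := by exact_mod_cast hN
    set H : ℕ := Nat.sqrt N with hH
    have hH1 : 1 ≤ H := by
      rw [hH, Nat.one_le_iff_ne_zero, Ne, Nat.sqrt_eq_zero]
      omega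
    have hHN : H ≤ N := Nat.sqrt_le_self N
    have hHpos : (0 : ℝ) < H := by exact_mod_cast hH1
    have hHN' : (H : ℝ) ≤ N := by exact_mod_cast hHN
    -- the majorants of the differences
    have hu : ∀ u : ℕ, 1 ≤ u → u < H → ∃ t : ℕ → ℝ, (∀ k, 0 ≤ t k) ∧
        (∀ (k : ℕ) (P : ℝ[X]), P.natDegree ≤ s →
          ‖∑ n ∈ Icc 1 N, (if n + u ≤ N then a (n + u) * (starRingEnd ℂ) (a n) else 0) *
            e ((k + θ) * (η * (a₀ ^ u - 1) * a₀ ^ n) + P.eval (n : ℝ))‖ ≤ t k) ∧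
        ∑ k ∈ Icc 1 K, (t k) ^ 2 ≤ C * K * (N : ℝ) ^ (2 - c) := by
      intro u hu1 huH
      have hexp : δ ≤ a₀ ^ u - 1 := by
        have h1 : a₀ ^ 1 ≤ a₀ ^ u := pow_le_pow_right₀ ha₀.le hu1
        rw [pow_one] at h1
        have h2 := min_le_right 1 (a₀ - 1)
        rw [← hδ] at h2
        linarith
      apply hmain N K hNN0 hN hK (η * (a₀ ^ u - 1)) _ _ θ _ _
      · rw [abs_mul, abs_of_pos (by linarith : 0 < a₀ ^ u - 1)]
        calc Real.exp (-((b + ε / 2) / 2 * N)) = Real.exp (-(b * N)) * Real.exp (-(g * N)) := by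
              rw [← Real.exp_add]; congr 1; rw [hg]; ring
          _ ≤ |η| * (a₀ ^ u - 1) :=
              mul_le_mul hη1 (hNδ.trans hexp) (Real.exp_pos _).le (abs_nonneg _)
      · rw [abs_mul, abs_of_pos (by linarith : 0 < a₀ ^ u - 1)]
        have h3 : a₀ ^ u - 1 ≤ Real.exp (Real.log a₀ * N) := by
          have h4 : a₀ ^ u ≤ a₀ ^ N := pow_le_pow_right₀ ha₀.le (by omega)
          have h5 : Real.exp (Real.log a₀ * N) = a₀ ^ N := by
            rw [mul_comm, Real.exp_nat_mul, Real.exp_log (by linarith)]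
          linarith
        calc |η| * (a₀ ^ u - 1) ≤ Real.exp (A * N) * Real.exp (Real.log a₀ * N) :=
              mul_le_mul hη2 h3 (by linarith) (Real.exp_pos _).le
          _ = Real.exp ((A + Real.log a₀) * N) := by rw [← Real.exp_add]; congr 1; ring
      · intro n
        split_ifs
        · rw [norm_mul, RCLike.norm_conj]
          exact mul_le_one₀ (ha _) (norm_nonneg _) (ha _)
        · simp
    choose! t ht0 htb hts using hu
    set B : ℕ → ℝ := fun k => (N + H) / H * (N + 2 * ∑ u ∈ Ico 1 H, t u k) with hB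
    have hB0 : ∀ k, 0 ≤ B k := by
      intro k
      have : 0 ≤ ∑ u ∈ Ico 1 H, t u k := by
        apply Finset.sum_nonneg
        intro u hu
        rw [Finset.mem_Ico] at hu
        exact ht0 u hu.1 hu.2 k
      rw [hB]
      positivity
    refine ⟨fun k => Real.sqrt (B k), fun k => Real.sqrt_nonneg _, ?_, ?_⟩
    · intro k P hP
      apply Real.le_sqrt_of_sq_le
      have h1 := vdc_nat a ha (fun n => (k + θ) * (η * a₀ ^ n) + P.eval (n : ℝ)) N H hH1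
      have h2 : ∑ u ∈ Ico 1 H, ‖∑ n ∈ Icc 1 N, (if n + u ≤ N then
          a (n + u) * (starRingEnd ℂ) (a n) else 0) *
          e (((k + θ) * (η * a₀ ^ (n + u)) + P.eval ((n + u : ℕ) : ℝ)) -
            ((k + θ) * (η * a₀ ^ n) + P.eval (n : ℝ)))‖ ≤ ∑ u ∈ Ico 1 H, t u k := by
        apply Finset.sum_le_sum
        intro u hu
        rw [Finset.mem_Ico] at hu
        obtain ⟨Q, hQ, hQe⟩ := exists_diff P s u hP
        have h3 := htb u hu.1 hu.2 k Q hQ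
        refine le_trans (le_of_eq ?_) h3
        congr 1
        refine Finset.sum_congr rfl (fun n _ => ?_)
        congr 2
        rw [← hQe n]
        push_cast
        rw [pow_add]
        ring
      have h4 : (H : ℝ) * ‖∑ n ∈ Icc 1 N, a n * e ((k + θ) * (η * a₀ ^ n) +
          P.eval (n : ℝ))‖ ^ 2 ≤ (N + H) * (N + 2 * ∑ u ∈ Ico 1 H, t u k) := by
        refine h1.trans ?_
        apply mul_le_mul_of_nonneg_left _ (by positivity)
        linarith
      rw [hB]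
      dsimp only
      rw [div_mul_eq_mul_div, le_div_iff₀ hHpos, mul_comm]
      exact h4
    · have h5 : ∀ u ∈ Ico 1 H, ∑ k ∈ Icc 1 K, t u k ≤ K * (Real.sqrt C * (N : ℝ) ^ (1 - c / 2)) := by
        intro u hu
        rw [Finset.mem_Ico] at hu
        have h6 := sq_sum_le_card_mul_sum_sq (s := Icc 1 K) (f := fun k => t u k)
        rw [Nat.card_Icc, Nat.add_sub_cancel] at h6
        have h7 : (K : ℝ) * ∑ k ∈ Icc 1 K, (t u k) ^ 2 ≤
            (K * (Real.sqrt C * (N : ℝ) ^ (1 - c / 2))) ^ 2 := by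
          have h8 : (K * (Real.sqrt C * (N : ℝ) ^ (1 - c / 2))) ^ 2 =
              K * (C * K * (N : ℝ) ^ (2 - c)) := by
            rw [mul_pow, mul_pow, Real.sq_sqrt hC.le, ← Real.rpow_natCast ((N : ℝ) ^ (1 - c / 2)) 2,
              ← Real.rpow_mul (by linarith)]
            have : (1 - c / 2) * ((2 : ℕ) : ℝ) = 2 - c := by push_cast; ring
            rw [this]
            ring
          rw [h8]
          exact mul_le_mul_of_nonneg_left (hts u hu.1 hu.2) (Nat.cast_nonneg _)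
        exact le_of_sq_le_sq (h6.trans h7) (by positivity)
      have h9 : ∑ k ∈ Icc 1 K, (Real.sqrt (B k)) ^ 2 =
          (N + H) / H * (N * K + 2 * ∑ u ∈ Ico 1 H, ∑ k ∈ Icc 1 K, t u k) := by
        have h10 : ∀ k ∈ Icc 1 K, (Real.sqrt (B k)) ^ 2 =
            (N + H) / H * (N + 2 * ∑ u ∈ Ico 1 H, t u k) := fun k _ => Real.sq_sqrt (hB0 k)
        rw [Finset.sum_congr rfl h10, ← Finset.mul_sum, Finset.sum_add_distrib,
          ← Finset.mul_sum, Finset.sum_comm]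
        simp only [Finset.sum_const, Nat.card_Icc, Nat.add_sub_cancel, nsmul_eq_mul]
        ring
      have hS : ∑ u ∈ Ico 1 H, ∑ k ∈ Icc 1 K, t u k ≤
          H * (K * (Real.sqrt C * (N : ℝ) ^ (1 - c / 2))) := by
        calc ∑ u ∈ Ico 1 H, ∑ k ∈ Icc 1 K, t u k
            ≤ ∑ u ∈ Ico 1 H, K * (Real.sqrt C * (N : ℝ) ^ (1 - c / 2)) := Finset.sum_le_sum h5
          _ = ((H - 1 : ℕ) : ℝ) * (K * (Real.sqrt C * (N : ℝ) ^ (1 - c / 2))) := by
            rw [Finset.sum_const, Nat.card_Ico, nsmul_eq_mul]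
          _ ≤ H * (K * (Real.sqrt C * (N : ℝ) ^ (1 - c / 2))) := by
            apply mul_le_mul_of_nonneg_right _ (by positivity)
            exact_mod_cast Nat.sub_le H 1
      have hNpow : (N : ℝ) * (N : ℝ) ^ (1 - c / 2) = (N : ℝ) ^ (2 - c / 2) := by
        have : (2 : ℝ) - c / 2 = 1 + (1 - c / 2) := by ring
        rw [this, Real.rpow_add (by linarith), Real.rpow_one]
      have hN2 : (N : ℝ) ^ 2 ≤ 2 * H * (N : ℝ) ^ (2 - c / 2) := by
        have h11 : (N : ℝ) ≤ (2 * H) ^ 2 := by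
          have h12 : N < (H + 1) * (H + 1) := Nat.lt_succ_sqrt N
          have h13 : N ≤ (2 * H) ^ 2 := by nlinarith
          exact_mod_cast h13
        have h14 : (N : ℝ) ^ (1 / 2 : ℝ) ≤ 2 * H := by
          rw [← Real.sqrt_eq_rpow]
          exact Real.sqrt_le_iff.mpr ⟨by positivity, h11⟩
        have h15 : (N : ℝ) ^ 2 = (N : ℝ) ^ (3 / 2 : ℝ) * (N : ℝ) ^ (1 / 2 : ℝ) := by
          rw [← Real.rpow_add (by linarith), ← Real.rpow_natCast]
          norm_num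
        have h16 : (N : ℝ) ^ (3 / 2 : ℝ) ≤ (N : ℝ) ^ (2 - c / 2) :=
          Real.rpow_le_rpow_of_exponent_le hN1 (by linarith)
        rw [h15]
        calc (N : ℝ) ^ (3 / 2 : ℝ) * (N : ℝ) ^ (1 / 2 : ℝ) ≤
            (N : ℝ) ^ (2 - c / 2) * (2 * H) :=
              mul_le_mul h16 h14 (by positivity) (by positivity)
          _ = _ := by ring
      have hK0 : (0 : ℝ) ≤ K := Nat.cast_nonneg _
      have hfac : ((N : ℝ) + H) / H ≤ 2 * N / H := by
        apply div_le_div_of_nonneg_right _ hHpos.le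
        linarith
      calc ∑ k ∈ Icc 1 K, (Real.sqrt (B k)) ^ 2
          = (N + H) / H * (N * K + 2 * ∑ u ∈ Ico 1 H, ∑ k ∈ Icc 1 K, t u k) := h9
        _ ≤ 2 * N / H * (N * K + 2 * (H * (K * (Real.sqrt C * (N : ℝ) ^ (1 - c / 2))))) := by
          apply mul_le_mul hfac _ _ (by positivity)
          · linarith
          · have : 0 ≤ ∑ u ∈ Ico 1 H, ∑ k ∈ Icc 1 K, t u k := by
              apply Finset.sum_nonneg
              intro u hu
              rw [Finset.mem_Ico] at hu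
              exact Finset.sum_nonneg (fun k _ => ht0 u hu.1 hu.2 k)
            positivity
        _ = 2 * K * ((N : ℝ) ^ 2 / H) + 4 * Real.sqrt C * K * ((N : ℝ) * (N : ℝ) ^ (1 - c / 2)) := by
          field_simp
          ring
        _ ≤ 2 * K * (2 * (N : ℝ) ^ (2 - c / 2)) + 4 * Real.sqrt C * K * (N : ℝ) ^ (2 - c / 2) := by
          rw [hNpow]
          have h17 : (N : ℝ) ^ 2 / H ≤ 2 * (N : ℝ) ^ (2 - c / 2) := by
            rw [div_le_iff₀ hHpos]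
            linarith
          have := mul_le_mul_of_nonneg_left h17 (show 0 ≤ 2 * (K : ℝ) by positivity)
          linarith
        _ = (4 + 4 * Real.sqrt C) * K * (N : ℝ) ^ (2 - c / 2) := by ring

end Pool.Agent.Helper71.AAM
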