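import Mathlib
import Pool.Agent.Helper71.AAM.Weyl

/-!
# From exponential sums to counting in arcs
-/

namespace Pool.Agent.Helper71.AAM

open Finset

/-- The second periodic Bernoulli function. -/
noncomputable def bt (x : ℝ) : ℝ := Int.fract x ^ 2 - Int.fract x + 1 / 6

theorem hasSum_bt (x : ℝ) :
    HasSum (fun h : ℕ => 1 / (h : ℝ) ^ 2 * Real.cos (2 * Real.pi * h * x))
      (Real.pi ^ 2 * bt x) := by
  have hx : Int.fract x ∈ Set.Icc (0 : ℝ) 1 := ⟨Int.fract_nonneg x, (Int.fract_lt_one x).le⟩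
  have h1 := hasSum_one_div_nat_pow_mul_cos (k := 1) one_ne_zero hx
  have h2 : (fun h : ℕ => 1 / (h : ℝ) ^ 2 * Real.cos (2 * Real.pi * h * x)) =
      (fun n : ℕ => 1 / (n : ℝ) ^ (2 * 1) * Real.cos (2 * Real.pi * n * Int.fract x)) := by
    funext h
    congr 1
    have h3 : 2 * Real.pi * h * x = 2 * Real.pi * h * Int.fract x +
        ((h * ⌊x⌋ : ℤ) : ℝ) * (2 * Real.pi) := by
      have := Int.fract_add_floor x
      push_cast
      linear_combination (-2 * Real.pi * h) * this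
    rw [h3, Real.cos_add_int_mul_two_pi]
  rw [h2]
  convert h1 using 1
  have h4 : (Polynomial.map (algebraMap ℚ ℝ) (Polynomial.bernoulli (2 * 1))).eval (Int.fract x) =
      Int.fract x ^ 2 - Int.fract x + 1 / 6 := by
    have h5 : Polynomial.bernoulli (2 * 1) =
        Polynomial.X ^ 2 - Polynomial.X + Polynomial.C (1 / 6 : ℚ) := by
      rw [Polynomial.bernoulli]
      simp only [Finset.sum_range_succ, Finset.sum_range_zero, mul_one, zero_add]
      norm_num [bernoulli_eq_bernoulli'_of_ne_one, bernoulli'_two, bernoulli_one, Nat.choose,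
        Polynomial.monomial_zero_left, ← Polynomial.C_mul_X_pow_eq_monomial]
      ring
    rw [h5]
    simp
  rw [h4]
  unfold bt
  have h6 : ((-1 : ℝ)) ^ (1 + 1) * (2 * Real.pi) ^ (2 * 1) / 2 / ((2 * 1).factorial : ℝ) =
      Real.pi ^ 2 := by
    norm_num [Nat.factorial]
    ring
  rw [h6]

theorem bt_sub (w c : ℝ) (hc0 : 0 ≤ c) (hc1 : c ≤ 1) :
    bt (w - c) = (Int.fract w - c) ^ 2 - |Int.fract w - c| + 1 / 6 := by
  set y := Int.fract w with hy
  have hy0 : 0 ≤ y := Int.fract_nonneg w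
  have hy1 : y < 1 := Int.fract_lt_one w
  have hw : w - c = y - c + ⌊w⌋ := by
    have := Int.fract_add_floor w
    linarith
  unfold bt
  rw [hw, Int.fract_add_intCast]
  rcases le_or_gt c y with h | h
  · have h1 : Int.fract (y - c) = y - c := Int.fract_eq_self.mpr ⟨by linarith, by linarith⟩
    rw [h1, abs_of_nonneg (by linarith)]
  · have h1 : Int.fract (y - c) = y - c + 1 := by
      rw [← Int.fract_add_one]
      exact Int.fract_eq_self.mpr ⟨by linarith, by linarith⟩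
    rw [h1, abs_of_neg (by linarith)]
    ring

/-- The pointwise majorant of an arc. -/
theorem arc_majorant (x a l δ : ℝ) (hl : 0 ≤ l) (hδ : 0 < δ) (h1 : l + 2 * δ ≤ 1) :
    (if Int.fract (x - a) < l then (1 : ℝ) else 0) ≤ (l + δ) -
      1 / (2 * δ) * (bt (x - a + δ) - bt (x - a + δ - δ) - bt (x - a + δ - (δ + l)) +
        bt (x - a + δ - (2 * δ + l))) := by
  set w := x - a + δ with hw
  have e0 : bt w = bt (w - 0) := by rw [sub_zero]
  rw [e0, bt_sub w 0 le_rfl zero_le_one, bt_sub w δ hδ.le (by linarith),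
    bt_sub w (δ + l) (by linarith) (by linarith), bt_sub w (2 * δ + l) (by linarith) (by linarith)]
  set y := Int.fract w with hy
  have hy0 : 0 ≤ y := Int.fract_nonneg w
  have hy1 : y < 1 := Int.fract_lt_one w
  have key : (l + δ) - 1 / (2 * δ) * ((y - 0) ^ 2 - |y - 0| + 1 / 6 -
      ((y - δ) ^ 2 - |y - δ| + 1 / 6) - ((y - (δ + l)) ^ 2 - |y - (δ + l)| + 1 / 6) +
      ((y - (2 * δ + l)) ^ 2 - |y - (2 * δ + l)| + 1 / 6)) =
      1 / (2 * δ) * (|y| - |y - δ| - |y - (δ + l)| + |y - (2 * δ + l)|) := by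
    rw [sub_zero]
    field_simp
    ring
  rw [key]
  split_ifs with hin
  · -- inside the arc
    have h2 : δ ≤ y ∧ y < δ + l := by
      have h3 : Int.fract (x - a) = x - a - ⌊x - a⌋ := rfl
      have h4 : y = Int.fract (x - a) + δ := by
        rw [hy, hw]
        have : x - a + δ = (Int.fract (x - a) + δ) + ⌊x - a⌋ := by rw [h3]; ring
        rw [this, Int.fract_add_intCast]
        exact Int.fract_eq_self.mpr ⟨by have := Int.fract_nonneg (x - a); linarith, by linarith⟩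
      have := Int.fract_nonneg (x - a)
      constructor <;> linarith
    rw [abs_of_nonneg hy0, abs_of_nonneg (by linarith : 0 ≤ y - δ),
      abs_of_nonpos (by linarith : y - (δ + l) ≤ 0), abs_of_nonpos (by linarith)]
    apply le_of_eq
    field_simp
    ring
  · apply mul_nonneg (by positivity)
    rw [abs_of_nonneg hy0]
    rcases abs_cases (y - δ) with h | h <;> rcases abs_cases (y - (δ + l)) with h' | h' <;>
      rcases abs_cases (y - (2 * δ + l)) with h'' | h'' <;> linarith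

/-- The constant in the estimate of sums of periodic Bernoulli functions. -/
noncomputable def Z : ℝ := ∑' h : ℕ, 1 / (h : ℝ) ^ (3 / 2 : ℝ)

theorem Z_nonneg : 0 ≤ Z := tsum_nonneg (fun h => by positivity)

theorem summable_Z : Summable (fun h : ℕ => 1 / (h : ℝ) ^ (3 / 2 : ℝ)) :=
  Real.summable_one_div_nat_rpow.mpr (by norm_num)

/-- Small exponential sums give small sums of the periodic Bernoulli function. -/
theorem bt_sum_bound (S : Finset ℕ) (x : ℕ → ℝ) (N κ L c : ℝ) (hS : (S.card : ℝ) ≤ N)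
    (hκ : 0 < κ) (hL : 1 ≤ κ ^ 2 * L)
    (hsum : ∀ h : ℕ, 1 ≤ h → (h : ℝ) ≤ L → ‖∑ n ∈ S, e (h * x n)‖ ≤ κ * N) :
    |∑ n ∈ S, bt (x n - c)| ≤ κ * N * Z := by
  have hN0 : 0 ≤ N := le_trans (Nat.cast_nonneg _) hS
  have h1 : HasSum (fun h : ℕ => ∑ n ∈ S, 1 / (h : ℝ) ^ 2 *
      Real.cos (2 * Real.pi * h * (x n - c))) (∑ n ∈ S, Real.pi ^ 2 * bt (x n - c)) :=
    hasSum_sum (fun n _ => hasSum_bt (x n - c))
  have h2 : ∀ h : ℕ, ‖∑ n ∈ S, 1 / (h : ℝ) ^ 2 * Real.cos (2 * Real.pi * h * (x n - c))‖ ≤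
      κ * N * (1 / (h : ℝ) ^ (3 / 2 : ℝ)) := by
    intro h
    rcases Nat.eq_zero_or_pos h with h0 | hpos
    · subst h0
      simp
    have hh1 : (1 : ℝ) ≤ h := by exact_mod_cast hpos
    have hh0 : (0 : ℝ) < h := by linarith
    rw [← Finset.mul_sum, norm_mul, Real.norm_of_nonneg (by positivity)]
    have h3 : ∑ n ∈ S, Real.cos (2 * Real.pi * h * (x n - c)) =
        (e (-(h * c)) * ∑ n ∈ S, e (h * x n)).re := by
      rw [Finset.mul_sum, Complex.re_sum]
      refine Finset.sum_congr rfl (fun n _ => ?_)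
      rw [← e_add]
      unfold e
      have : (2 * Real.pi * Complex.I * ((-(h * c) + h * x n : ℝ) : ℂ)) =
          ((2 * Real.pi * h * (x n - c) : ℝ) : ℂ) * Complex.I := by
        push_cast; ring
      rw [this, Complex.exp_ofReal_mul_I_re]
    have h4 : ‖∑ n ∈ S, Real.cos (2 * Real.pi * h * (x n - c))‖ ≤ ‖∑ n ∈ S, e (h * x n)‖ := by
      rw [h3]
      calc ‖(e (-(h * c)) * ∑ n ∈ S, e (h * x n)).re‖ ≤ ‖e (-(h * c)) * ∑ n ∈ S, e (h * x n)‖ :=
            Complex.abs_re_le_norm _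
        _ = ‖∑ n ∈ S, e (h * x n)‖ := by rw [norm_mul, norm_e, one_mul]
    have h5 : ‖∑ n ∈ S, e (h * x n)‖ ≤ N := by
      calc ‖∑ n ∈ S, e (h * x n)‖ ≤ ∑ n ∈ S, ‖e (h * x n)‖ := norm_sum_le _ _
        _ = S.card := by simp [norm_e]
        _ ≤ N := hS
    have h6 : (1 : ℝ) / (h : ℝ) ^ 2 = 1 / (h : ℝ) ^ (3 / 2 : ℝ) * (1 / (h : ℝ) ^ (1 / 2 : ℝ)) := by
      rw [div_mul_div_comm, one_mul, ← Real.rpow_add hh0, ← Real.rpow_natCast]
      norm_num
    have h7 : (1 : ℝ) / (h : ℝ) ^ (1 / 2 : ℝ) * ‖∑ n ∈ S, e (h * x n)‖ ≤ κ * N := by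
      rcases le_or_gt (h : ℝ) L with hle | hgt
      · have h8 := hsum h hpos hle
        have h9 : (1 : ℝ) ≤ (h : ℝ) ^ (1 / 2 : ℝ) := Real.one_le_rpow hh1 (by norm_num)
        have h10 : (1 : ℝ) / (h : ℝ) ^ (1 / 2 : ℝ) ≤ 1 := by
          rw [div_le_one (by positivity)]
          exact h9
        calc (1 : ℝ) / (h : ℝ) ^ (1 / 2 : ℝ) * ‖∑ n ∈ S, e (h * x n)‖ ≤
            1 * ‖∑ n ∈ S, e (h * x n)‖ := mul_le_mul_of_nonneg_right h10 (norm_nonneg _)
          _ ≤ κ * N := by rw [one_mul]; exact h8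
      · have h11 : (1 : ℝ) / (h : ℝ) ^ (1 / 2 : ℝ) ≤ κ := by
          rw [← Real.sqrt_eq_rpow, div_le_iff₀ (Real.sqrt_pos.mpr hh0)]
          have h12 : (1 : ℝ) ≤ (κ * Real.sqrt h) ^ 2 := by
            rw [mul_pow, Real.sq_sqrt hh0.le]
            calc (1 : ℝ) ≤ κ ^ 2 * L := hL
              _ ≤ κ ^ 2 * h := mul_le_mul_of_nonneg_left hgt.le (by positivity)
          have h13 : 0 ≤ κ * Real.sqrt h := by positivity
          nlinarith
        exact mul_le_mul h11 h5 (norm_nonneg _) hκ.le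
    calc 1 / (h : ℝ) ^ 2 * ‖∑ n ∈ S, Real.cos (2 * Real.pi * h * (x n - c))‖
        ≤ 1 / (h : ℝ) ^ 2 * ‖∑ n ∈ S, e (h * x n)‖ :=
          mul_le_mul_of_nonneg_left h4 (by positivity)
      _ = 1 / (h : ℝ) ^ (3 / 2 : ℝ) * (1 / (h : ℝ) ^ (1 / 2 : ℝ) * ‖∑ n ∈ S, e (h * x n)‖) := by
        rw [h6]; ring
      _ ≤ 1 / (h : ℝ) ^ (3 / 2 : ℝ) * (κ * N) := mul_le_mul_of_nonneg_left h7 (by positivity)
      _ = κ * N * (1 / (h : ℝ) ^ (3 / 2 : ℝ)) := by ring
  have h14 : ‖∑ n ∈ S, Real.pi ^ 2 * bt (x n - c)‖ ≤ κ * N * Z := by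
    rw [← h1.tsum_eq]
    have h15 : HasSum (fun h : ℕ => κ * N * (1 / (h : ℝ) ^ (3 / 2 : ℝ))) (κ * N * Z) :=
      summable_Z.hasSum.mul_left _
    exact tsum_of_norm_bounded h15 h2
  rw [← Finset.mul_sum, norm_mul, Real.norm_of_nonneg (by positivity), Real.norm_eq_abs] at h14
  have hpi : (1 : ℝ) ≤ Real.pi ^ 2 := by
    have := Real.pi_gt_three
    nlinarith
  calc |∑ n ∈ S, bt (x n - c)| ≤ Real.pi ^ 2 * |∑ n ∈ S, bt (x n - c)| :=
        le_mul_of_one_le_left (abs_nonneg _) hpi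
    _ ≤ κ * N * Z := h14

/-- Counting in an arc, upper bound. -/
theorem arc_upper (S : Finset ℕ) (x : ℕ → ℝ) (N κ L : ℝ) (hS : (S.card : ℝ) ≤ N)
    (hκ : 0 < κ) (hL : 1 ≤ κ ^ 2 * L)
    (hsum : ∀ h : ℕ, 1 ≤ h → (h : ℝ) ≤ L → ‖∑ n ∈ S, e (h * x n)‖ ≤ κ * N)
    (a l δ : ℝ) (hl : 0 ≤ l) (hδ : 0 < δ) :
    ((S.filter (fun n => Int.fract (x n - a) < l)).card : ℝ) ≤
      l * S.card + 2 * δ * N + 2 / δ * (κ * N * Z) := by
  have hN0 : 0 ≤ N := le_trans (Nat.cast_nonneg _) hS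
  have hZ := Z_nonneg
  have hE0 : 0 ≤ κ * N * Z := by positivity
  rcases le_or_gt (l + 2 * δ) 1 with h1 | h1
  · have h2 : ((S.filter (fun n => Int.fract (x n - a) < l)).card : ℝ) =
        ∑ n ∈ S, (if Int.fract (x n - a) < l then (1 : ℝ) else 0) := by
      rw [← Finset.sum_filter]
      simp
    rw [h2]
    have h3 := Finset.sum_le_sum (fun n (_ : n ∈ S) => arc_majorant (x n) a l δ hl hδ h1)
    refine h3.trans ?_
    rw [Finset.sum_sub_distrib, Finset.sum_const, nsmul_eq_mul, ← Finset.mul_sum,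
      Finset.sum_add_distrib, Finset.sum_sub_distrib, Finset.sum_sub_distrib]
    have b0 := bt_sum_bound S x N κ L (a - δ) hS hκ hL hsum
    have b1 := bt_sum_bound S x N κ L a hS hκ hL hsum
    have b2 := bt_sum_bound S x N κ L (a + l) hS hκ hL hsum
    have b3 := bt_sum_bound S x N κ L (a + δ + l) hS hκ hL hsum
    have r0 : ∀ n, x n - a + δ = x n - (a - δ) := fun n => by ring
    have r1 : ∀ n, x n - (a - δ) - δ = x n - a := fun n => by ring
    have r2 : ∀ n, x n - (a - δ) - (δ + l) = x n - (a + l) := fun n => by ring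
    have r3 : ∀ n, x n - (a - δ) - (2 * δ + l) = x n - (a + δ + l) := fun n => by ring
    simp only [r0, r1, r2, r3]
    rw [abs_le] at b0 b1 b2 b3
    set E := κ * N * Z with hE
    have h4 : -(4 * E) ≤ (∑ n ∈ S, bt (x n - (a - δ)) - ∑ n ∈ S, bt (x n - a) -
        ∑ n ∈ S, bt (x n - (a + l)) + ∑ n ∈ S, bt (x n - (a + δ + l))) := by
      linarith [b0.1, b1.2, b2.2, b3.1]
    have h5 : 1 / (2 * δ) * (-(4 * E)) ≤ 1 / (2 * δ) * (∑ n ∈ S, bt (x n - (a - δ)) -
        ∑ n ∈ S, bt (x n - a) - ∑ n ∈ S, bt (x n - (a + l)) +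
        ∑ n ∈ S, bt (x n - (a + δ + l))) := mul_le_mul_of_nonneg_left h4 (by positivity)
    have h6 : 1 / (2 * δ) * (-(4 * E)) = -(2 / δ * E) := by
      field_simp
      ring
    rw [h6] at h5
    have h7 : (S.card : ℝ) * (l + δ) ≤ l * S.card + 2 * δ * N := by nlinarith
    linarith
  · have h2 : ((S.filter (fun n => Int.fract (x n - a) < l)).card : ℝ) ≤ S.card := by
      exact_mod_cast Finset.card_filter_le _ _
    have h3 : (S.card : ℝ) ≤ (l + 2 * δ) * S.card :=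
      le_mul_of_one_le_left (Nat.cast_nonneg _) h1.le
    have h4 : 0 ≤ 2 / δ * (κ * N * Z) := by positivity
    nlinarith

theorem fract_arc (x α β : ℝ) (hα : 0 ≤ α) (hαβ : α < β) (hβ : β ≤ 1) :
    Int.fract (x - α) < β - α ↔ (α ≤ Int.fract x ∧ Int.fract x < β) := by
  set y := Int.fract x with hy
  have hy0 : 0 ≤ y := Int.fract_nonneg x
  have hy1 : y < 1 := Int.fract_lt_one x
  have hw : x - α = y - α + ⌊x⌋ := by
    have := Int.fract_add_floor x
    linarith
  rw [hw, Int.fract_add_intCast]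
  rcases le_or_gt α y with h | h
  · have h1 : Int.fract (y - α) = y - α := Int.fract_eq_self.mpr ⟨by linarith, by linarith⟩
    rw [h1]
    constructor
    · intro h2; exact ⟨h, by linarith⟩
    · intro h2; linarith [h2.2]
  · have h1 : Int.fract (y - α) = y - α + 1 := by
      rw [← Int.fract_add_one]
      exact Int.fract_eq_self.mpr ⟨by linarith, by linarith⟩
    rw [h1]
    constructor
    · intro h2; linarith
    · intro h2; linarith [h2.1]

theorem fract_arc_compl (x α β : ℝ) (hα : 0 ≤ α) (hαβ : α < β) (hβ : β ≤ 1) :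
    Int.fract (x - β) < 1 - (β - α) ↔ ¬ (α ≤ Int.fract x ∧ Int.fract x < β) := by
  set y := Int.fract x with hy
  have hy0 : 0 ≤ y := Int.fract_nonneg x
  have hy1 : y < 1 := Int.fract_lt_one x
  have hw : x - β = y - β + ⌊x⌋ := by
    have := Int.fract_add_floor x
    linarith
  rw [hw, Int.fract_add_intCast]
  rcases le_or_gt β y with h | h
  · have h1 : Int.fract (y - β) = y - β := Int.fract_eq_self.mpr ⟨by linarith, by linarith⟩
    rw [h1]
    constructor
    · intro _ h2; linarith [h2.2]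
    · intro _; linarith
  · have h1 : Int.fract (y - β) = y - β + 1 := by
      rw [← Int.fract_add_one]
      exact Int.fract_eq_self.mpr ⟨by linarith, by linarith⟩
    rw [h1]
    constructor
    · intro h2 h3; linarith [h3.1]
    · intro h2
      by_contra h3
      exact h2 ⟨by linarith, h⟩

/-- Counting in arcs, two-sided. -/
theorem arc_count (S : Finset ℕ) (x : ℕ → ℝ) (N κ L : ℝ) (hS : (S.card : ℝ) ≤ N)
    (hκ : 0 < κ) (hL : 1 ≤ κ ^ 2 * L)
    (hsum : ∀ h : ℕ, 1 ≤ h → (h : ℝ) ≤ L → ‖∑ n ∈ S, e (h * x n)‖ ≤ κ * N)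
    (α β : ℝ) (hα : 0 ≤ α) (hαβ : α < β) (hβ : β ≤ 1) :
    |((S.filter (fun n => α ≤ Int.fract (x n) ∧ Int.fract (x n) < β)).card : ℝ) -
      (β - α) * S.card| ≤ (2 + 2 * Z) * Real.sqrt κ * N := by
  classical
  have hs : 0 < Real.sqrt κ := Real.sqrt_pos.mpr hκ
  have hsq : κ = Real.sqrt κ * Real.sqrt κ := (Real.mul_self_sqrt hκ.le).symm
  have hE : 2 / Real.sqrt κ * (κ * N * Z) = 2 * Z * Real.sqrt κ * N := by
    calc 2 / Real.sqrt κ * (κ * N * Z) = 2 / Real.sqrt κ * ((Real.sqrt κ * Real.sqrt κ) * N * Z) := by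
          rw [← hsq]
      _ = _ := by
        field_simp
  have u1 := arc_upper S x N κ L hS hκ hL hsum α (β - α) (Real.sqrt κ) (by linarith) hs
  have u2 := arc_upper S x N κ L hS hκ hL hsum β (1 - (β - α)) (Real.sqrt κ) (by linarith) hs
  rw [hE] at u1 u2
  have f1 : S.filter (fun n => Int.fract (x n - α) < β - α) =
      S.filter (fun n => α ≤ Int.fract (x n) ∧ Int.fract (x n) < β) :=
    Finset.filter_congr (fun n _ => fract_arc (x n) α β hα hαβ hβ)
  have f2 : S.filter (fun n => Int.fract (x n - β) < 1 - (β - α)) =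
      S.filter (fun n => ¬ (α ≤ Int.fract (x n) ∧ Int.fract (x n) < β)) :=
    Finset.filter_congr (fun n _ => fract_arc_compl (x n) α β hα hαβ hβ)
  rw [f1] at u1
  rw [f2] at u2
  have hcard : ((S.filter (fun n => α ≤ Int.fract (x n) ∧ Int.fract (x n) < β)).card : ℝ) +
      ((S.filter (fun n => ¬ (α ≤ Int.fract (x n) ∧ Int.fract (x n) < β))).card : ℝ) =
      S.card := by
    exact_mod_cast Finset.card_filter_add_card_filter_not _
  rw [abs_le]
  constructor <;> nlinarith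

end Pool.Agent.Helper71.AAM
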