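import Pool.Agent.Helper71.AAM.Main
import Pool.Agent.Helper46.TB.AC

/-!
# The same for a real number with the multiplicative measure of `Helper46/TB`
-/

set_option autoImplicit false

namespace Pool.Agent.Helper71.AAM

open Polynomial Finset

/-- the hypothesis of `aam` from the multiplicative measure -/
theorem hd_of_mult {a₀ : ℝ} (ha₀ : 1 < a₀) (h : Pool.Agent.Helper46.TB.HasMult a₀) :
    ∀ A ε : ℝ, 0 < ε → ∃ c C : ℝ, 0 < c ∧ c < 1 ∧ 0 < C ∧ ∀ N : ℕ, 1 ≤ N → ∀ ξ : ℝ,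
      Real.exp (-(ε / 2 * N)) ≤ |ξ| → |ξ| ≤ Real.exp (A * N) → ∀ x : ℝ,
      ({n : ℕ | 1 ≤ n ∧ n ≤ N ∧ |ξ * a₀ ^ n - x - round (ξ * a₀ ^ n - x)| ≤
        Real.exp (-(ε * N))}.ncard : ℝ) ≤ C * (N : ℝ) ^ (1 - c) := by
  intro A ε hε
  obtain ⟨c, C, hc0, hc1, hC, hm⟩ := Pool.Agent.Helper46.TB.part_one ha₀ h 0 A ε hε
  refine ⟨c, C, hc0, hc1, hC, ?_⟩
  intro N hN ξ h1 h2 x
  have h3 := hm N hN ξ h1 h2 (Polynomial.C x) (by rw [Polynomial.natDegree_C])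
  simpa [Pool.Agent.Helper46.TB.dist1] using h3

theorem aam_of_mult {a₀ : ℝ} (ha₀ : 1 < a₀) (h : Pool.Agent.Helper46.TB.HasMult a₀)
    (s : ℕ) (A ε : ℝ) (hε : 0 < ε) :
    ∃ c : ℝ, 0 < c ∧ ∃ N₀ : ℕ, ∀ N : ℕ, N₀ ≤ N → ∀ K : ℕ, Real.exp (ε * N) ≤ K →
      ∀ ξ : ℝ, Real.exp (-(ε / 4 * N)) ≤ |ξ| → |ξ| ≤ Real.exp (A * N) → ∀ θ : ℝ,
      ∀ S : Finset ℕ, S ⊆ Finset.Icc 1 N →
      ({k : ℕ | 1 ≤ k ∧ k ≤ K ∧ ¬ ∀ P : ℝ[X], P.natDegree ≤ s → ∀ α β : ℝ,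
        0 ≤ α → α < β → β ≤ 1 →
        |((S.filter (fun n : ℕ =>
            α ≤ Int.fract ((k + θ) * ξ * a₀ ^ n + P.eval (n : ℝ)) ∧
            Int.fract ((k + θ) * ξ * a₀ ^ n + P.eval (n : ℝ)) < β)).card : ℝ) -
          (β - α) * S.card| ≤ (N : ℝ) ^ (1 - c)}.ncard : ℝ) ≤ K * (N : ℝ) ^ (-c) :=
  aam ha₀ (hd_of_mult ha₀ h) s A ε hε

end Pool.Agent.Helper71.AAM
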